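import Pool.Agent.N110.IM.Main
import Pool.Agent.N110.QPlateau
import Pool.Agent.N110.CanS
import Pool.Agent.N110.RK.Stat
import Pool.Agent.N110.NV.Fin
import Pool.Agent.R887.Exc

/-!
Varieties which are dominated by a minimal variety with dominant rational self-maps whose greatest
dynamical degree is not attained at several consecutive indices: nonvanishing.
-/

set_option autoImplicit false

open FF Pool.Agent.W602.GT Pool.Agent.Y172 Pool.Agent.R887 Pool.Agent.N110

/-- Let `X'` be a normal projective variety of dimension `n ≥ 1`, with generic point `y'`, and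
`Δ' ≥ 0` a `ℚ`-divisor on `X'` such that `K_X' + Δ'` is nef (for instance, let `X'` be a minimal
variety and `Δ' = 0`). Let `S` be a set of dominant rational self-maps `f` of `X'`, invertible or
not, given by the endomorphisms `φ = f^*` of the function field, of bounded degrees (a single map,
for instance). Suppose that `f^* (K_X' + Δ')` is at most `K_X' + Δ'` over the prime divisors of `X'`,
or that `Δ' = 0` and `X'` has canonical singularities (no condition on the maps then). Suppose that
the greatest of the joint dynamical degrees `λ 0, ..., λ n` of `S` (the dynamical degrees of `f`, if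
`S = {f}`) is not attained at `ν + 1` consecutive indices.

Let `X` be any projective variety with canonical singularities (for instance smooth) which is
dominated by `X'`: there is a dominant rational map `X' ⇢ X`, generically finite, given by the
homomorphism `π` of the function fields. It has nothing to do with the self-maps of `X'`, and `K_X`
is not assumed to be nef. Then the numerical dimension of `K_X` is less than `ν`, and so is the
Kodaira dimension of `X`; if the Kodaira dimension is at least `ν - 1`, then the Kodaira dimension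
and the numerical dimension of `K_X` are equal. If `ν = 1`, the irregularity of `X` is zero and `K_X`
is pseudo-effective, then the Kodaira dimension of `X` is zero: some multiple `m K_X`, `m ≥ 1`, has a
section `ω ≠ 0`; also the numerical dimension which is defined by the number of the sections of
`m K_X + A` is zero. -/
theorem Pool.Agent.Results.MP_e06174_ag.DominatedSelfMaps.result
    {K K' : Type} [Field K] [Algebra ℂ K] [Field K'] [Algebra ℂ K'] {N N' n : ℕ}
    {y : Fin (N + 1) → K} {y' : Fin (N' + 1) → K'} (hy : NormalModel y) (hy' : NormalModel y')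
    (hn : Algebra.trdeg ℂ K = n) (hn' : Algebra.trdeg ℂ K' = n) (hn0 : 0 < n)
    {Δ' : Place ℂ K' → ℚ} (hΔ' : Effective y' Δ') (hnef : LogNef y' n Δ')
    {S : Set (K' →ₐ[ℂ] K')}
    (hS : (∀ φ ∈ S, SelfPullLe φ y' n Δ') ∨ (Δ' = 0 ∧ Canonical y' n))
    {C : ℕ} (hC : ∀ φ ∈ S, selfDegree φ y' n 1 ≤ C) {ν : ℕ} (hν : ν ≤ n)
    (hdeg : ∀ j, j + ν ≤ n → ∃ a ≤ ν, ∃ p ≤ n,
      selfJointDegree S y' n (j + a) < selfJointDegree S y' n p)
    (hcan : Canonical y n) (π : K →ₐ[ℂ] K') :
    NumDimLt y n 0 ν ∧ ¬ KappaGe y n 0 ν ∧ (1 ≤ ν → KappaGe y n 0 (ν - 1) → Abundant y n 0) ∧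
      (ν = 1 → LogPsef y n 0 → IrregularityZero y →
        (∃ m : ℕ, 1 ≤ m ∧ ∃ ω : (Fin n → Derivation ℂ K K) → K, ω ≠ 0 ∧ IsSection y n m 0 ω) ∧
        kodairaDim y n 0 = ((0 : ℕ) : WithBot ℕ) ∧
        ∀ A, Effective y A → Integral y A → numericalDim y n 0 A = ((0 : ℕ) : EReal)) := by
  have hz : {P : Place ℂ K | IsPrimeDivisor y P ∧ (0 : Place ℂ K → ℚ) P ≠ 0}.Finite :=
    Set.finite_empty.subset (by rintro P ⟨-, h⟩; exact h rfl)
  have hS' : ∀ φ ∈ S, SelfPullLe φ y' n Δ' := by
    rcases hS with h | ⟨rfl, hcan'⟩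
    · exact h
    · exact fun φ _ => selfPullLe_canonical hy' hn' hcan' φ
  have key : NumDimLt y' n Δ' ν := by
    by_contra hnum
    obtain ⟨j, hj, h4⟩ := splateau hy' hn' hΔ'.2 hnef hS' hC hν hnum
    obtain ⟨a, ha, p, hp, hlt⟩ := hdeg j hj
    exact absurd hlt (not_lt.2 (h4 a ha p hp))
  have h1 := IM.numDimLt_can hy hy' hn hn' hcan hΔ'.1 π hν key
  refine ⟨h1, ?_, fun h2 h3 => ⟨ν - 1, h3, ?_⟩, ?_⟩
  · rintro ⟨m, hm, ω, E, hω, h0, hind⟩
    exact kappa_lt hy hn hν h1 hm hω h0 hind
  · rwa [show ν - 1 + 1 = ν by omega]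
  · rintro rfl hpsef hq
    obtain ⟨m, hm, ω, hω0, hω⟩ := NV.nonvanishing hy hn hn0 hz hpsef h1 hq
    have hsec : IsSection y n m 0 ω := by rwa [smul_zero] at hω
    exact ⟨⟨m, hm, ω, hω0, hsec⟩,
      abundance_zero hy hn hn0 ⟨fun _ _ => le_rfl, hz⟩ h1 hm hω hω0⟩
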