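import Pool.Agent.N162.HN.MainB
import Pool.Agent.N162.HN.Top

/-!
# Negative Kodaira dimension and unirationality of images of hypersurfaces, degrees up to order `d ^ 2`

Let `V` be a smooth hypersurface of degree `d` in `ℙ^(n+1)`, of any dimension `n ≥ 1`. Let `W` be any
smooth projective variety with a dominant rational map `V ⇢ W` of degree `r`; nothing is assumed about
the map (it need not be a quotient by a group, and its ramification is arbitrary) or about `W`.

**Theorem.** Let `d ≥ 7 N + n + 6`, `d > (n + 1) N` and `d > 2 (N + n - 1)` (if `N ≥ 2` the last
condition follows from the second one). If `r < (N + 1) (d - n - N)` then these are equivalent: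
`p_g(W) = 0`; `κ(W) = -∞`; `K_W` is not pseudo-effective; `W` is uniruled; `W` is unirational.

With the best `N` the bound for `r` is `(6 / 49 - o(1)) d ^ 2` if `n ≤ 6`, and
`(n / (n + 1) ^ 2 - o(1)) d ^ 2` if `n ≥ 6`. The theorem `ImagesOfSmallDegree` of the starting
repository is the case `r ≤ 2 d - 2 n - 3` (`N ≤ 1`; it also treats singular hypersurfaces, and shows
that `W` is rational in this case).

The proof shows more: if `p_g(W) = 0` then, for some `e ≤ N`, the general fibre of `V ⇢ W` is the union
of orbits of conjugate curve sections of degree `e d`, and `W` is dominated by the projective space
`ℙ^(n+1)`.

## Proof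

Let `L ⊆ K` be the function fields of `W` and `V`, and `Ω` an algebraic closure of `L`. The general fibre
of `V ⇢ W` is the set of the `r` embeddings `K → Ω` over `L`. The traces of the forms `P Res(Ω / F)`,
`deg P = m = d - n - 2`, are regular on `W`. If `p_g(W) = 0` then they vanish: this is a relation between
the values of the forms of degree `m` at the points of the fibre.

1. *The fibre is a union of curve sections.* If fewer than `(N + 1) (m + 2 - N)` points in the plane have a
   relation of degree `m` with non-zero coefficients then they are on a curve of degree at most
   `N`. With `n` projections, the points of the fibre are on the curve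
   `A_1(x, z_1) = ... = A_n(x, z_n) = 0`, where the `A_l` have degree at most `N`; the Cayley-Bacharach
   theorem, applied to `n + 1` equations, shows that they are on components `C_i` with
   `∑ deg C_i ≤ N`. The components which contain points of the fibre are not contained in `V`: otherwise
   `V` would be covered by curves of degree at most `N`. By the residue theorem the cycle `V · C_i`
   also has null trace; a counting argument shows that the fibre is the sum of the cycles `V · C_i`
   over some components `C_i`, the intersections are transversal at all points of the fibre, and no point
   of the fibre is on two of the `C_i`. In particular all points of `V · C_i` which are generic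
   points of `V` belong to the fibre. This part is common with our theorem
   `MP_e1e111_ag.CyclesOnHypersurfaces` on Bloch's conjecture.
2. *The family of curves.* Choose one of these curves `C`, with the function field `E` over `Ω` and the
   coordinates `X`. The Galois group of `Ω` over `L` permutes the components. Consider a
   valuation of `E` which is centred at `V`, that is, a valuation ring `O` with
   `P(X) ∈ O^* ⟺ P(x) ≠ 0` for all forms `P` over `ℂ`, where `x` is the generic point of `V`. It is
   trivial on `Ω`: otherwise the curve `C` would specialise to a curve, defined over a field of
   transcendence degree `n - 1`, through the generic point of `V` and contained in `V`, and `V` would be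
   covered by a family of curves of degree at most `N` and dimension `n - 1`; this is impossible, because
   a Jacobian determinant, whose zeros can be counted, would be zero. So `O` is the local ring of a
   point of `C`; this point is a point of the fibre, since it is a generic point of `V`. The intersection
   is transversal there, and two such points are conjugate under an automorphism of `Ω` over `L` which
   fixes the curve `C`, so that they give the same valuation ring of the subfield `E₀ ⊂ E` generated by `L` and
   `X`. So the valuation ring of `ℂ(ℙ^(n+1))` at the prime divisor `V` has only one extension to `E₀`, it is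
   unramified, and the extension of the residue fields is trivial.
3. *It follows that `E₀` is the function field of projective space*, that is, `L` is contained in
   `ℂ(X)`, where `X` is a generic point of `ℙ^(n+1)`: the degree of `E₀` over `ℂ(X)` is the sum of the
   products of the ramification indices and residue degrees, which is one. So `W` is dominated by
   `ℙ^(n+1)`, and by a general hyperplane.

The parts were formalised by helper565 (the plane curves), helper279 (Cayley-Bacharach), helper543 (the
combinatorial part), helper80 and helper835 (the configuration), helper488, helper887, helper767, helper56,
helper2, helper570 (curves and differential forms), helper386 (traces), helper954 (descent),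
helper681, helper459, helper490, helper966 (the single curve), helper946, helper717, helper56, helper607
(specialisation of the family), helper454, helper263, helper433, helper426, helper693 (valuations centred
at `V`), helper674 (unirationality in the right dimension), with the algebra of function fields of curves
from the case `n = 2` by helper31, helper169, helper401, helper615, helper27, helper861,
helper247, helper75, helper944, helper849, helper624, helper225, helper141, helper558, helper134,
helper296, helper713 and helper232; the statements, the coordinates and the assembly by helper162.

The function-field language of the starting repository is used: `K` is the function field of `V`,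
and `L`, a subfield of `K`, the function field of `W`. A canonical form (`IsPluri 1`) on a variety
of dimension `n` is a function of `n` rational vector fields; it is regular at the prime divisor `P`
(`Place`, `Divisorial`, `RegAt`) if its value on vector fields which are regular at `P` is regular
at `P`. `KodGe ℂ L n (fun _ => False) 0` says that `κ(W) ≥ 0`, `Psef ℂ L n (fun _ => False)` that
`K_W` is pseudo-effective (`Pool/Agent/W602/GT`), `IsUniruled ℂ L n` that `W` is uniruled
(`Pool/Agent/W619/PQ/Defs.lean`).
-/

set_option autoImplicit false

open FF MvPolynomial Pool.Agent.W602.GT
open Pool.Agent.W619.PQ (IsUniruled)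

namespace Pool.Agent.Results.MP_e06174_ag.ImagesOfQuadraticDegree

section

variable (L : Type) [Field L] [Algebra ℂ L] (n : ℕ)

/-- The geometric genus is zero: the only canonical form which is regular at all prime divisors is
`0`. -/
def GenusZero : Prop :=
  ∀ ω : (Fin n → Derivation ℂ L L) → L, IsPluri 1 ω →
    (∀ P : Place ℂ L, Divisorial n P → RegAt P ω) → ∀ D, ω D = 0

/-- The varieties of dimension `n` with function field `L` are unirational: `L` embeds into the
field of rational functions in `n` variables. -/
def IsUnirational : Prop :=
  Nonempty (L →ₐ[ℂ] FractionRing (MvPolynomial (Fin n) ℂ))

end

/-- **Images of hypersurfaces.** Let `K` be the function field of a smooth hypersurface `V` with the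
equation `F` of degree `d` in `ℙ^(n+1)`, with generic point `x`, `x 0 = 1`, where `n ≥ 1`,
`d ≥ 7 N + n + 6`, `d > (n + 1) N` and `d > 2 (N + n - 1)`. Let `W` be a smooth projective variety with
function field `L` and `V ⇢ W` a dominant rational map of degree less than `(N + 1) (d - n - N)`. Then
`p_g(W) = 0` if and only if `κ(W) = -∞`, if and only if `K_W` is not pseudo-effective, if and only if
`W` is uniruled, if and only if `W` is unirational. -/
theorem result {n d N : ℕ} (hn : 1 ≤ n) (hd : 7 * N + n + 6 ≤ d) (hd' : (n + 1) * N < d)
    (hd'' : 2 * (N + n - 1) < d) {F : MvPolynomial (Fin (n + 2)) ℂ} (homogeneous : F.IsHomogeneous d)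
    (smooth : ∀ z : Fin (n + 2) → ℂ, z ≠ 0 → ∃ l, eval z (pderiv l F) ≠ 0)
    {K : Type} [Field K] [Algebra ℂ K] (hK : Algebra.trdeg ℂ K = n) {x : Fin (n + 2) → K}
    (hx0 : x 0 = 1) (hx : aeval x F = 0) (hgen : IntermediateField.adjoin ℂ (Set.range x) = ⊤)
    (L : Type) [Field L] [Algebra ℂ L] [Algebra L K] [IsScalarTower ℂ L K] [FiniteDimensional L K]
    (hr : Module.finrank L K < (N + 1) * (d - n - N)) :
    [GenusZero L n, ¬ KodGe ℂ L n (fun _ => False) 0, ¬ Psef ℂ L n (fun _ => False),
      IsUniruled ℂ L n, IsUnirational L n].TFAE := by
  obtain ⟨m, hmd⟩ : ∃ m, m + n + 2 = d := ⟨d - n - 2, by omega⟩
  have h1 : d - n - N = m + 2 - N := by omega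
  rw [h1] at hr
  have hessK : Algebra.EssFiniteType ℂ K := by
    rw [← IntermediateField.fg_top_iff]
    classical
    exact ⟨Finset.univ.image x, by
      rw [Finset.coe_image, Finset.coe_univ, Set.image_univ, hgen]⟩
  have hessL : Algebra.EssFiniteType ℂ L := Pool.Agent.TH466.QG.ess_below (K := K)
  have hL : Algebra.trdeg ℂ L = n := Pool.Agent.Y184.NT.trdeg_below (K := K) hK
  exact Pool.Agent.N162.HN.tfae_unirational hn hL fun hg =>
    Pool.Agent.N162.HN.mainB hn hmd (by omega) hd' hd'' smooth homogeneous hx0 hx hgen hK L hr hg

end Pool.Agent.Results.MP_e06174_ag.ImagesOfQuadraticDegree
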