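import Pool.Agent.N110.NV.Fin
import Pool.Agent.N110.JPlateau
import Pool.Agent.N110.Can
import Pool.Agent.R887.Exc

/-!
Varieties of irregularity zero with birational self-maps whose greatest dynamical degree is not
attained at two consecutive indices: the Kodaira dimension is zero or the canonical divisor is not
pseudo-effective.
-/

set_option autoImplicit false

open FF Pool.Agent.W602.GT Pool.Agent.Y172 Pool.Agent.R887 Pool.Agent.N110

/-- Let `X` be a normal projective variety of dimension `n ≥ 1` with canonical singularities (a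
projective manifold, for instance), with generic point `y`, of irregularity zero. Let `S` be a set
of birational self-maps of `X`, given by the automorphisms of the function field, of bounded degrees
(a single map, for instance), and suppose that the greatest of the joint dynamical degrees
`λ 0, ..., λ n` of `S` (the dynamical degrees of `f`, if `S = {f}`) is not attained at two
consecutive indices. If `K_X` is pseudo-effective (by a theorem of Boucksom, Demailly, Paun and
Peternell this means that `X` is not uniruled) then the Kodaira dimension of `X` is not `-∞`: some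
multiple `m K_X`, `m ≥ 1`, has a section `ω ≠ 0`, and the Kodaira dimension and the numerical
dimension of `K_X` are both zero. -/
theorem Pool.Agent.Results.MP_e06174_ag.NonvanishingHyperbolic.result
    {K : Type} [Field K] [Algebra ℂ K] {N n : ℕ} {y : Fin (N + 1) → K} (hy : NormalModel y)
    (hn : Algebra.trdeg ℂ K = n) (hn0 : 0 < n) (hcan : Canonical y n) (hq : IrregularityZero y)
    {S : Set (K ≃ₐ[ℂ] K)} {C : ℕ} (hC : ∀ φ ∈ S, mixedDegree φ y n 1 ≤ C)
    (hdeg : ∀ j, j + 1 ≤ n → ∃ a ≤ 1, ∃ p ≤ n, jointDegree S y n (j + a) < jointDegree S y n p)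
    (hpsef : LogPsef y n 0) :
    (∃ m : ℕ, 1 ≤ m ∧ ∃ ω : (Fin n → Derivation ℂ K K) → K, ω ≠ 0 ∧ IsSection y n m 0 ω) ∧
      kodairaDim y n 0 = ((0 : ℕ) : WithBot ℕ) ∧
      ∀ A, Effective y A → Integral y A → numericalDim y n 0 A = ((0 : ℕ) : EReal) := by
  have hz : {P : Place ℂ K | IsPrimeDivisor y P ∧ (0 : Place ℂ K → ℚ) P ≠ 0}.Finite :=
    Set.finite_empty.subset (by rintro P ⟨-, h⟩; exact h rfl)
  have key : NumDimLt y n 0 1 := by
    by_contra hnum
    obtain ⟨j, hj, h4⟩ := jplateau hy hn hz (fun φ _ => pullLe_canonical hy hn hcan φ)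
      (fun φ _ => pullLe_canonical hy hn hcan φ.symm) hC (by omega : 1 ≤ n) hnum
    obtain ⟨a, ha, p, hp, hlt⟩ := hdeg j hj
    exact absurd hlt (not_lt.2 (h4 a ha p hp))
  obtain ⟨m, hm, ω, hω0, hω⟩ := NV.nonvanishing hy hn hn0 hz hpsef key hq
  have hs : IsSection y n m 0 ω := by rwa [smul_zero] at hω
  exact ⟨⟨m, hm, ω, hω0, hs⟩, abundance_zero hy hn hn0 ⟨fun _ _ => le_rfl, hz⟩ key hm hω hω0⟩
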