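import Pool.Agent.N145.SX.Gen0
import Pool.Agent.N145.SX.Fin

/-!
# Varieties of geometric genus zero dominated by the product of a variety and a curve

Let `X` be a smooth projective variety over `ℂ` of dimension `m` and `C` a smooth projective curve of
any genus. Let `X × C ⇢ W` be a dominant rational map of finite degree to a variety `W`. It need not
be related to the product structure, and it need not be the quotient by a group. Let `d` be the number
of different points of `X` below a general fibre of `X × C ⇢ W`, i.e. the degree over `W` of the image
of `X × C` in `W × X`; it is at most the degree of `X × C ⇢ W`, which may be arbitrarily large.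

Suppose that the canonical forms of `X` separate `d` general points: for some nonempty open subset
`U` of `X` any `d` different points of `U` impose independent conditions on `H⁰(X, K_X)`. For example:

* `X` is a smooth hypersurface of degree at least `m + 1 + d` in projective space, or more generally
  `K_X - (d - 1) H` is effective for a divisor `H` which defines a birational map to a projective
  space;
* `X` is a product of curves of gonality greater than `d`.

Then the following are equivalent:

1. `p_g(W) = 0`;
2. `κ(W) = -∞`;
3. `K_W` is not pseudo-effective;
4. `W` is uniruled;
5. `W` has a fibration `W ⇢ Z` whose geometric generic fibre is a rational curve, where `dim Z = m`,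
   `p_g(Z) > 0`, and `X ⇢ Z` is a dominant rational map of degree at most `d` through which
   `X × C ⇢ Z` factors.

So a variety `W` in this class with `κ(W) = -∞` is uniruled, with a very special structure: it is a
conic bundle, up to birational maps, over an image of `X` under a map of degree at most `d`, and the
map `X × C ⇢ W` is compatible with the projections, although it is arbitrary otherwise. For instance,
if the variety `X` has no dominant rational maps of degree between `2` and `d` then `Z` is birational
to `X`. If `p_g(W) = 0` and `m > 0` then `h^{m,0}(W) ≥ p_g(Z) > 0`, so `W` is not rationally
connected.

There is no condition on the irregularity: in the first example `q(X) = 0` if `m > 1`, and `q(W) = 0`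
is possible. The number `d` is optimal: a bielliptic surface `W = (X × C) / G` with a group `G` of
order two, where `X / G` is rational and `C / G` elliptic, has `d = 2`, the canonical forms of the
elliptic curve `X` separate one point, `p_g(W) = 0` and `κ(W) = 0`. The team's theorem
`MP_410da7_ag.ProductWithCurve` contains the equivalence of the first four conditions also for open
varieties.

Proof. Let `f` be a canonical form of `X` and `φ` a differential on `C`. The trace on `W` of the
product of their pullbacks is a canonical form, so it is zero if `p_g(W) = 0`. This is a relation
between the values of `f` at the at most `d` points of `X` below a generic point `P` of `W`, with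
coordinates in the algebraic closure of the function field of `W`. As these points are separated, the
coefficients vanish: all `φ` have trace zero on the points of the fibre over `P` with a fixed first
coordinate `x`, i.e. on the image `R_x` of `{x} × C` in `W × X`. By base change to the algebraic
closure `Λ` of the function field of `X` all differentials of the geometric generic fibre `C_Λ` have
trace zero on `R_x`. So `R_x` is rational, and its image in `W` is rational. The points of `X` below
the points of this rational curve `R` over `Λ` are constant: the correspondence between `R` and `X`
has degree at most `d`; if one of these points `x'` were not constant on the curve `Ξ` of the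
correspondence, then choose derivations `D_u` of `Λ` such that the determinant of `x'` with respect to
a derivation `D_s` of `Ξ / Λ` and `m - 1` of the `D_u` does not vanish. A canonical form `f` pulled
back by `x'` and contracted with these vector fields gives a regular differential on `Ξ / Λ`: all
prime divisors of `Ξ / Λ` are prime divisors over `ℂ`, and the vector fields can be adapted to each
of them. Its trace on the line with coordinate `s` is a regular differential, so it is zero. As at
most `d` points of `X` are separated, the determinant vanishes: contradiction. So the functions of
`X` are algebraic over the field `N = ℂ(W) ∩ ℂ(X)`, the function field of `Z`, and the degree of `X`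
over `Z` is at most `d`. The traces on `Z` of the canonical forms of `X` do not all vanish, again
since at most `d` points are separated, so `p_g(Z) > 0`.

The parts of the Lean proof on pull-backs, products, the geometric generic fibre and the
correspondences on rational curves are due to helpers 123, 221, 160, 279, 603, 545, 281, 438, 277 and
999.
-/

set_option autoImplicit false
set_option linter.overlappingInstances false
set_option maxHeartbeats 4000000
set_option synthInstance.maxHeartbeats 400000

open FF Module IntermediateField Pool.Agent Pool.Agent.W602.GT
open Pool.Agent.W619.PQ (IsUniruled)

namespace Pool.Agent.Results.MP_e06174_ag.ProductWithCurveGenusZero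

/-- **The canonical forms separate `r` general points.** `E` is the function field of a variety `X` of
dimension `m`, and `D` a rational frame of the tangent bundle. The embeddings `σ : E → Ω` are the
generic points of `X` with coordinates in the field `Ω`. At most `r` different such points impose
independent conditions on the canonical forms `ω` which are regular at all prime divisors: if
`∑ c σ * σ (ω D) = 0` for all `ω` then all the coefficients `c σ` are zero. -/
def SeparatesPoints (E : Type) [Field E] [Algebra ℂ E] (m r : ℕ) : Prop :=
  ∀ D : Fin m → Derivation ℂ E E, LinearIndependent E D →
    ∀ (Ω : Type) [Field Ω] [Algebra ℂ Ω] [IsAlgClosed Ω] (A : Finset (E →ₐ[ℂ] Ω)), A.card ≤ r →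
    ∀ c : (E →ₐ[ℂ] Ω) → Ω,
    (∀ ω : (Fin m → Derivation ℂ E E) → E, IsPluri 1 ω →
      (∀ P : Place ℂ E, Divisorial m P → RegAt P ω) → ∑ σ ∈ A, c σ * σ (ω D) = 0) →
    ∀ σ ∈ A, c σ = 0

/-- The geometric genus of the varieties with function field `L`, of dimension `n`, is zero: the only
canonical form which is regular at all prime divisors is `0`. -/
def GenusZero (L : Type) [Field L] [Algebra ℂ L] (n : ℕ) : Prop :=
  ∀ ω : (Fin n → Derivation ℂ L L) → L, IsPluri 1 ω →
    (∀ P : Place ℂ L, Divisorial n P → RegAt P ω) → ∀ D, ω D = 0

/-- There is a fibration `W ⇢ Z` with geometrically rational generic fibre, over a variety `Z` of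
dimension `m` and of positive geometric genus, such that `X × C ⇢ Z` is the composition of the
projection to `X` with a dominant rational map `X ⇢ Z` of degree at most `d`. In terms of the
function fields `L` of `W`, `K` of `X × C` and `E ⊆ K` of `X`: there is a subfield `N` of `L` (the
function field of `Z`), algebraically closed in `L` and of transcendence degree `m`, the embedding of
`L` in `K` maps `N` into `E`, the degree of `E` over the image of `N` is finite and at most `d`, and
over an algebraic extension `M` of `N` there is an embedding over `N` of `L` into the field of
rational functions `M(t)`. -/
def IsFibredBelow {K : Type} [Field K] [Algebra ℂ K] (E : IntermediateField ℂ K) (L : Type) [Field L]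
    [Algebra ℂ L] [Algebra L K] [IsScalarTower ℂ L K] (m d : ℕ) : Prop :=
  ∃ N : IntermediateField ℂ L, (∀ z : L, IsAlgebraic N z → z ∈ N) ∧ Algebra.trdeg ℂ N = m ∧
    N.map (IsScalarTower.toAlgHom ℂ L K) ≤ E ∧
    0 < relfinrank (N.map (IsScalarTower.toAlgHom ℂ L K)) E ∧
    relfinrank (N.map (IsScalarTower.toAlgHom ℂ L K)) E ≤ d ∧ ¬ GenusZero N m ∧
    ∃ (M : Type) (_ : Field M) (_ : Algebra N M),
      Algebra.IsAlgebraic N M ∧ Nonempty (L →ₐ[N] RatFunc M)

/-- **Varieties of geometric genus zero dominated by the product of a variety and a curve.** Let `K`
be the function field of `X × C`, i.e. the compositum of the function fields `E` of the variety `X` of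
dimension `m` and `C` of the curve, of transcendence degree `m + 1`. Let `L ⊆ K` be the function field
of a variety `W` such that the extension is finite, and let `d` be the degree over `W` of the image of
`X × C` in `W × X`. If the canonical forms of `X` separate `d` general points, then the following are
equivalent: `p_g(W) = 0`; `κ(W) = -∞`; `K_W` is not pseudo-effective; `W` is uniruled; `W` has a
fibration with geometrically rational generic fibre over a variety `Z` of dimension `m` with
`p_g(Z) > 0`, where `X × C ⇢ Z` factors through a dominant rational map `X ⇢ Z` of degree at most
`d`. -/
theorem result (K : Type) [Field K] [Algebra ℂ K] [Algebra.EssFiniteType ℂ K] (m : ℕ)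
    (E C : IntermediateField ℂ K) [Algebra.EssFiniteType ℂ E] [IsFF ℂ C] (hEC : E ⊔ C = ⊤)
    (hE : Algebra.trdeg ℂ E = m) (hK : Algebra.trdeg ℂ K = (m + 1 : ℕ)) (L : Type) [Field L]
    [Algebra ℂ L] [Algebra L K] [IsScalarTower ℂ L K] [FiniteDimensional L K]
    (hX : SeparatesPoints E m (finrank L (IntermediateField.adjoin L (E : Set K)))) :
    [GenusZero L (m + 1), ¬ KodGe ℂ L (m + 1) (fun _ => False) 0,
      ¬ Psef ℂ L (m + 1) (fun _ => False), IsUniruled ℂ L (m + 1),
      IsFibredBelow E L m (finrank L (IntermediateField.adjoin L (E : Set K)))].TFAE := by
  obtain ⟨x, D, hx, hD⟩ := Pool.Agent.Y172.exists_crd hE
  exact N145.SX.five_all (L := L) hEC hE hK hx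
    (N145.SX.sepX_of' hx hD fun Ω _ _ _ A hA c hc => hX D (N145.SX.dual_indep hD) Ω A hA c hc)
    (Nat.lt_succ_self _)

end Pool.Agent.Results.MP_e06174_ag.ProductWithCurveGenusZero
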